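import Pool.Agent.Work.MP_3c38ca_co.ClassAB
import Pool.Agent.Work.MP_3c38ca_co.ClassCD

/-!
A cycle `C_m` with `k` pendant edges at one vertex is harmonious if and only if `m` is odd, or `m`
is even, `m ≥ 8` and `k ≥ 2`.
-/

namespace Pool.Agent.Results.MP_3c38ca_co.CycleWithStar

/-- labels for `m = 12` -/
def w12 (i : ℕ) : ℤ := [0, -7, 1, -6, 5, -5, 3, -2, 6, -1, 4, 2].getD i 0

/-- edge sums for `m = 12` -/
def s12 (i : ℕ) : ℤ := [-7, -6, -5, -1, 0, -2, 1, 4, 5, 3, 6, 2].getD i 0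

/-- labels for `m = 14` -/
def w14 (i : ℕ) : ℤ := [0, -8, 1, 3, 2, -7, 4, -5, 5, -4, 6, -3, -1, 7].getD i 0

/-- edge sums for `m = 14` -/
def s14 (i : ℕ) : ℤ := [-8, -7, 4, 5, -5, -3, -1, 0, 1, 2, 3, -4, 6, 7].getD i 0

theorem pos_12 {k : ℕ} (hk : 2 ≤ k) : Harmonious (cycleStar 12 k) := by
  apply of_ints (m := 12) (k := k) (by norm_num)
    ({0, -7, 1, -6, 5, -5, 3, -2, 6, -1, 4, 2} : Finset ℤ) w12 s12
  · decide
  · have h : ∀ x ∈ ({0, -7, 1, -6, 5, -5, 3, -2, 6, -1, 4, 2} : Finset ℤ),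
        ∀ y ∈ ({0, -7, 1, -6, 5, -5, 3, -2, 6, -1, 4, 2} : Finset ℤ), x - y < 14 := by decide
    intro x hx y hy
    have := h x hx y hy
    push_cast
    omega
  · decide
  · decide
  · have h : ∀ i, i < 12 → ∀ j, j < 12 → w12 i = w12 j → i = j := by decide
    intro i j hi hj
    exact h i hi j hj
  · intro i hi
    have h : ∀ i, i < 11 → w12 i + w12 (i + 1) = s12 i := by decide
    exact h i (by omega)
  · decide
  · decide
  · have h : ∀ i, i < 12 → ∀ j, j < 12 → s12 i = s12 j → i = j := by decide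
    intro i j hi hj
    exact h i hi j hj

theorem pos_14 {k : ℕ} (hk : 2 ≤ k) : Harmonious (cycleStar 14 k) := by
  apply of_ints (m := 14) (k := k) (by norm_num)
    ({0, -8, 1, 3, 2, -7, 4, -5, 5, -4, 6, -3, -1, 7} : Finset ℤ) w14 s14
  · decide
  · have h : ∀ x ∈ ({0, -8, 1, 3, 2, -7, 4, -5, 5, -4, 6, -3, -1, 7} : Finset ℤ),
        ∀ y ∈ ({0, -8, 1, 3, 2, -7, 4, -5, 5, -4, 6, -3, -1, 7} : Finset ℤ), x - y < 16 := by
      decide
    intro x hx y hy
    have := h x hx y hy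
    push_cast
    omega
  · decide
  · decide
  · have h : ∀ i, i < 14 → ∀ j, j < 14 → w14 i = w14 j → i = j := by decide
    intro i j hi hj
    exact h i hi j hj
  · intro i hi
    have h : ∀ i, i < 13 → w14 i + w14 (i + 1) = s14 i := by decide
    exact h i (by omega)
  · decide
  · decide
  · have h : ∀ i, i < 14 → ∀ j, j < 14 → s14 i = s14 j → i = j := by decide
    intro i j hi hj
    exact h i hi j hj

theorem pos_even {m k : ℕ} (he : Even m) (hm : 8 ≤ m) (hk : 2 ≤ k) :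
    Harmonious (cycleStar m k) := by
  obtain ⟨N, hN⟩ := he
  by_cases h6 : N = 6
  · subst h6; rw [hN]; exact pos_12 hk
  by_cases h7 : N = 7
  · subst h7; rw [hN]; exact pos_14 hk
  have h : (N % 4 = 0 ∧ N = 4 * ((N - 4) / 4) + 4) ∨ (N % 4 = 2 ∧ N = 4 * ((N - 10) / 4) + 10) ∨
      (N % 4 = 1 ∧ N = 4 * ((N - 5) / 4) + 5) ∨ (N % 4 = 3 ∧ N = 4 * ((N - 11) / 4) + 11) := by
    omega
  rcases h with ⟨_, h⟩ | ⟨_, h⟩ | ⟨_, h⟩ | ⟨_, h⟩
  · have h1 : m = 2 * (4 * ((N - 4) / 4) + 4) := by omega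
    rw [h1]; exact pos_A hk _
  · have h1 : m = 2 * (4 * ((N - 10) / 4) + 10) := by omega
    rw [h1]; exact pos_B hk _
  · have h1 : m = 2 * (4 * ((N - 5) / 4) + 5) := by omega
    rw [h1]; exact pos_C hk _
  · have h1 : m = 2 * (4 * ((N - 11) / 4) + 11) := by omega
    rw [h1]; exact pos_D hk _

/-- For `m ≥ 3` and `k ≥ 0` the cycle `C_m` with `k` pendant edges at one vertex is harmonious if
and only if `m` is odd or both `m ≥ 8` and `k ≥ 2`. -/
theorem result (m k : ℕ) (hm : 3 ≤ m) :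
    Harmonious (cycleStar m k) ↔ (Odd m ∨ (8 ≤ m ∧ 2 ≤ k)) := by
  constructor
  · intro h
    by_contra hcon
    push Not at hcon
    obtain ⟨hodd, hbig⟩ := hcon
    have he : Even m := Nat.not_odd_iff_even.1 hodd
    have h0 : 0 < m := by omega
    rw [harmonious_iff h0 hm] at h
    obtain ⟨f, hf, hs⟩ := h
    by_cases hk : 2 ≤ k
    · have h8 : ¬ 8 ≤ m := fun h => absurd (hbig h) (by omega)
      have h46 : m = 4 ∨ m = 6 := by
        obtain ⟨c, hc⟩ := he
        omega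
      rcases h46 with rfl | rfl
      · exact not_four h0 f hf hs
      · exact not_six h0 f hf hs
    · have h01 : k = 0 ∨ k = 1 := by omega
      rcases h01 with rfl | rfl
      · exact not_zero h0 he f hf hs
      · exact not_one h0 he f hf hs
  · rintro (h | ⟨h8, h2⟩)
    · exact pos_odd hm h
    · rcases Nat.even_or_odd m with he | ho
      · exact pos_even he h8 h2
      · exact pos_odd hm ho

end Pool.Agent.Results.MP_3c38ca_co.CycleWithStar
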