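import Mathlib
import Pool.Agent.Work.MP_3c38ca_co.Cases

/-!
Classification of the harmonious unicyclic graphs of diameter at most three.

The proof is in `Pool/Agent/Work/MP_3c38ca_co`. In this file the statement is spelled out without
any definition of our own.
-/

namespace Pool.Agent.Results.MP_3c38ca_co.DiameterThree

/-- Let `G` be a unicyclic graph (connected, as many edges as vertices) of diameter at most three,
with `n` vertices.  Then `G` is harmonious unless one of the following holds.
* `G` is the six-cycle (`n = 6` and all degrees are two).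
* `G` has a four-cycle `x y z w` with `z` and `w` of degree two (then all vertices off the cycle
  are pendant at `x` or `y`, and `n = deg x + deg y`), and there is no divisor `L ≥ 2` of `n` with
  `3 L ≤ n`, `L < deg x`, `L < deg y` such that `L` does not divide `deg x`.
* `G` has a triangle `x y z` with `y` and `z` of degree two and `x` of degree three, the third
  neighbour `s` of `x` has degree at least two (then all further vertices are pendant at `s`), and
  `n` is not divisible by four.
In these three cases `G` is not harmonious. -/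
theorem result {V : Type*} [Fintype V] [DecidableEq V] (G : SimpleGraph V) [DecidableRel G.Adj]
    (hconn : G.Connected) (huni : G.edgeFinset.card = Fintype.card V)
    (hdiam : ∀ u v, G.dist u v ≤ 3) :
    (∃ f : V → ZMod G.edgeFinset.card, Function.Injective f ∧
      ∀ a b c d, G.Adj a b → G.Adj c d → f a + f b = f c + f d → s(a, b) = s(c, d)) ↔
    ¬ ((Fintype.card V = 6 ∧ ∀ v, G.degree v = 2) ∨
      (∃ x y z w, G.Adj x y ∧ G.Adj y z ∧ G.Adj z w ∧ G.Adj w x ∧ x ≠ z ∧ y ≠ w ∧
        G.degree z = 2 ∧ G.degree w = 2 ∧
        ¬ ∃ L, 2 ≤ L ∧ 3 * L ≤ Fintype.card V ∧ L ∣ Fintype.card V ∧ L < G.degree x ∧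
          L < G.degree y ∧ ¬ L ∣ G.degree x) ∨
      ((∃ x y z s, G.Adj x y ∧ G.Adj y z ∧ G.Adj z x ∧ G.Adj x s ∧ s ≠ y ∧ s ≠ z ∧
        G.degree x = 3 ∧ G.degree y = 2 ∧ G.degree z = 2 ∧ 2 ≤ G.degree s) ∧
        ¬ 4 ∣ Fintype.card V)) := by
  have h := HarmUni.classification (G := G) hconn huni hdiam
  unfold HarmUni.Harmonious HarmUni.Ex1 HarmUni.Ex2 HarmUni.Ex3 at h
  rw [Nat.card_eq_fintype_card, ← SimpleGraph.edgeFinset_card] at h
  exact h

end Pool.Agent.Results.MP_3c38ca_co.DiameterThree
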