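import Mathlib
import Pool.Agent.Work.MP_3c38ca_co.Hub

/-!
Unicyclic graphs with one large hub: harmoniousness is eventually periodic.

The proof is in `Pool/Agent/Work/MP_3c38ca_co`.
-/

namespace Pool.Agent.Results.MP_3c38ca_co.HubPeriodicity

/-- `G` is harmonious: with `q` the number of edges there is an injective map from the vertices to
`ZMod q` for which the edge sums of different edges are different. -/
def IsHarmonious {V : Type*} (G : SimpleGraph V) : Prop :=
  ∃ f : V → ZMod (Nat.card G.edgeSet), Function.Injective f ∧
    ∀ a b c d, G.Adj a b → G.Adj c d → f a + f b = f c + f d → s(a, b) = s(c, d)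

/-- The graph obtained from `G` by adding `m` new vertices, each adjacent to `v` only. -/
def addPendants {V : Type*} (G : SimpleGraph V) (v : V) (m : ℕ) : SimpleGraph (V ⊕ Fin m) where
  Adj
    | Sum.inl a, Sum.inl b => G.Adj a b
    | Sum.inl a, Sum.inr _ => a = v
    | Sum.inr _, Sum.inl b => b = v
    | Sum.inr _, Sum.inr _ => False
  symm := ⟨by
    rintro (a | a) (b | b) h
    · exact (show G.Adj a b from h).symm
    · exact h
    · exact h
    · exact h⟩
  loopless := ⟨by
    rintro (a | a) h
    · exact G.loopless.irrefl a h
    · exact h⟩

/-- Let `G` be a unicyclic graph (connected, as many edges as vertices) and `v` a vertex of `G`.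
There are `N ≥ 1` and `m₀` such that for `m, m' ≥ m₀` with
`gcd (|V| + m, N) = gcd (|V| + m', N)` the graph `G` with `m` additional pendant vertices at `v` is
harmonious if and only if `G` with `m'` additional pendant vertices at `v` is.  In particular the
set of the `m` for which the graph is harmonious is eventually periodic. -/
theorem result {V : Type*} [Finite V] (G : SimpleGraph V) (hconn : G.Connected)
    (huni : Nat.card G.edgeSet = Nat.card V) (v : V) :
    ∃ N m₀ : ℕ, 0 < N ∧ ∀ m m', m₀ ≤ m → m₀ ≤ m' →
      Nat.gcd (Nat.card V + m) N = Nat.gcd (Nat.card V + m') N →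
      (IsHarmonious (addPendants G v m) ↔ IsHarmonious (addPendants G v m')) :=
  HarmUni.hub_theorem G hconn huni v

end Pool.Agent.Results.MP_3c38ca_co.HubPeriodicity
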